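import Pool.Agent.Lib.MP_c42713_prK.KMain

namespace Pool.Agent.Results.MP_c42713_pr.GlauberStrongFields

open SKG MeasureTheory ProbabilityTheory Filter Topology

/-- Glauber dynamics of the Sherrington-Kirkpatrick model at every `β > 0` when at most `a n` sites
have a field of absolute value less than a constant `K`, where `2 β √a < 1` (for `a = 1` this is
every `β < 1/2` with no condition on the fields).

First part: for every choice of sets `S n` with at most `a n` elements, with probability tending to
one, simultaneously for all external fields `h` with at most `θ n` sites outside `S n` where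
`|h i| < K`, the single-site dynamics satisfies the Poincare inequality with constant
`1 - 2 β √a - δ` and mixes in at most `N n^3` steps. Second part: for every sequence of external
fields with at most `a n` sites where `|h i| < K`, `T_{1/4}(βW, h) ≤ n^4` with probability tending
to one. -/
theorem result :
    (∀ β a δ : ℝ, 0 < β → 0 < a → a ≤ 1 → 2 * β * Real.sqrt a < 1 → 0 < δ →
      ∃ (K θ : ℝ) (N : ℕ), 0 < K ∧ 0 < θ ∧
        ∀ S : ∀ n, Finset (Fin n), (∀ n, ((S n).card : ℝ) ≤ a * n) →
        ∃ A : ∀ n, Set (Smp n), (∀ n, MeasurableSet (A n)) ∧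
          Tendsto (fun n => gauss n (A n)) atTop (𝓝 1) ∧
          ∀ n, ∀ g ∈ A n, ∀ h : Fin n → ℝ,
            ((Finset.univ.filter (fun i => i ∉ S n ∧ |h i| < K)).card : ℝ) ≤ θ * n →
            (∀ f : Conf n → ℝ, (1 - 2 * β * Real.sqrt a - δ) *
                FS (gibbs (β • goe n g) h) Finset.univ f ≤
              ∑ i, FS (gibbs (β • goe n g) h) {i} f) ∧
            MixLE (β • goe n g) h (N * (n : ℝ) ^ 3)) ∧
    ∀ β a : ℝ, 0 < β → 0 < a → a ≤ 1 → 2 * β * Real.sqrt a < 1 →
      ∃ K : ℝ, 0 < K ∧ ∀ h : ∀ n, Fin n → ℝ,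
        (∀ᶠ n in atTop, ((Finset.univ.filter (fun i => |h n i| < K)).card : ℝ) ≤ a * n) →
        Tendsto (fun n => gauss n {g | MixLE (β • goe n g) (h n) ((n : ℝ) ^ 4)}) atTop (𝓝 1) :=
  ⟨fun β a δ hβ ha ha1 h2 hδ => SKG.main_strong β a δ hβ ha ha1 h2 hδ,
    fun β a hβ ha ha1 h2 => SKG.main_strong_seq β a hβ ha ha1 h2⟩

end Pool.Agent.Results.MP_c42713_pr.GlauberStrongFields
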